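import Pool.Agent.Work.MP_267827_an.AtMost

/-! The Polya-Szego conjecture for all polygons with at most `n` vertices, `n ≥ 5`. -/

set_option autoImplicit false

namespace Pool.Agent.Results.MP_267827_an.AtMostN

/-- For every `n ≥ 5`, every simple polygon with at most `n` vertices (convex or not, straight
angles allowed) with the area of a regular `n`-gon has first Dirichlet eigenvalue at least that of
the regular `n`-gon, with equality only if it is congruent to the regular one. -/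
theorem result :
  ∀ n : ℕ, 5 ≤ n → ∀ m : ℕ, 3 ≤ m → m ≤ n → ∀ r : ℝ, 0 < r →
    ∀ v : Fin m → EuclideanSpace ℝ (Fin 2), Function.Injective v →
    (∀ i j : Fin m, i ≠ j → ∀ z ∈ segment ℝ (v i) (v (finRotate m i)),
      z ∈ segment ℝ (v j) (v (finRotate m j)) →
        (j = finRotate m i ∧ z = v j) ∨ (i = finRotate m j ∧ z = v i)) →
    ∀ w : Fin n → EuclideanSpace ℝ (Fin 2),
    (∀ k : Fin n, w k = !₂[r * Real.cos (2 * Real.pi * ((k : ℕ) : ℝ) / (n : ℝ)),
                          r * Real.sin (2 * Real.pi * ((k : ℕ) : ℝ) / (n : ℝ))]) →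
    ∀ P R : Set (EuclideanSpace ℝ (Fin 2)),
    P = {x | x ∉ (⋃ i : Fin m, segment ℝ (v i) (v (finRotate m i))) ∧
          Bornology.IsBounded
            (connectedComponentIn (⋃ i : Fin m, segment ℝ (v i) (v (finRotate m i)))ᶜ x)} →
    R = {x | x ∉ (⋃ i : Fin n, segment ℝ (w i) (w (finRotate n i))) ∧
          Bornology.IsBounded
            (connectedComponentIn (⋃ i : Fin n, segment ℝ (w i) (w (finRotate n i)))ᶜ x)} →
    MeasureTheory.volume P = MeasureTheory.volume R →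
    ∀ lP lR : ℝ,
    lP = sInf {q : ℝ | ∃ u : EuclideanSpace ℝ (Fin 2) → ℝ, ContDiff ℝ 1 u ∧
          HasCompactSupport u ∧ tsupport u ⊆ P ∧ u ≠ 0 ∧
          q = (∫ x, ‖fderiv ℝ u x‖ ^ 2) / (∫ x, u x ^ 2)} →
    lR = sInf {q : ℝ | ∃ u : EuclideanSpace ℝ (Fin 2) → ℝ, ContDiff ℝ 1 u ∧
          HasCompactSupport u ∧ tsupport u ⊆ R ∧ u ≠ 0 ∧
          q = (∫ x, ‖fderiv ℝ u x‖ ^ 2) / (∫ x, u x ^ 2)} →
    lR ≤ lP ∧
      (lP = lR → ∃ e : EuclideanSpace ℝ (Fin 2) ≃ᵢ EuclideanSpace ℝ (Fin 2), e '' P = R) := by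
  exact fun n hn m hm hmn r hr v h1 h2 w hw P R hP hR =>
    Pool.Agent.Work.MP_267827_an.transferW n (Pool.Agent.Work.MP_267827_an.PS.core_allW hn) m hm hmn
      r hr v ⟨h1, h2⟩ w hw P R hP hR

end Pool.Agent.Results.MP_267827_an.AtMostN
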